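import Pool.Agent.Lib_helper53.PIX.Defs

/-!
# Upper and lower bounds for the iterated convolutions, and the least common multiple (MB, MC)
-/

set_option autoImplicit false

namespace Pool.Agent.Lib_helper87.PIXB

open Pool.Agent.Lib_helper53.PIX

theorem cont_ker (m : ℕ) : Continuous (ker m) := by
  unfold ker
  fun_prop

theorem ker_nonneg (m : ℕ) (y : ℝ) : 0 ≤ ker m y := by
  rw [ker, pow_mul]
  positivity

theorem ker_le (m : ℕ) {y : ℝ} (hy : 0 ≤ y) : ker m y ≤ y ^ (2 * m) := by
  have h1 : |2 * Real.sin (y / 2)| ≤ y := by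
    have h := Real.abs_sin_le_abs (x := y / 2)
    rw [abs_mul, abs_two]
    rw [abs_of_nonneg (by linarith : 0 ≤ y / 2)] at h
    linarith
  have h2 : ker m y = |2 * Real.sin (y / 2)| ^ (2 * m) := by
    rw [ker, pow_mul, pow_mul, sq_abs]
  rw [h2]
  exact pow_le_pow_left₀ (abs_nonneg _) h1 _

theorem le_ker (m : ℕ) {y : ℝ} (hy : 0 ≤ y) (hy' : y ≤ Real.pi) :
    (2 * y / Real.pi) ^ (2 * m) ≤ ker m y := by
  have h := Real.mul_le_sin (x := y / 2) (by linarith) (by linarith)
  have h1 : 2 * y / Real.pi ≤ 2 * Real.sin (y / 2) := by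
    have e : 2 * y / Real.pi = 2 * (2 / Real.pi * (y / 2)) := by ring
    rw [e]
    linarith
  exact pow_le_pow_left₀ (by positivity) h1 _

theorem cont_conv (m j : ℕ) : Continuous (conv m j) := by
  induction j with
  | zero => exact cont_ker m
  | succ j ih =>
    show Continuous fun y : ℝ => ∫ x in (0 : ℝ)..y, ker m (y - x) * conv m j x
    refine intervalIntegral.continuous_parametric_intervalIntegral_of_continuous ?_ continuous_id
    have h1 := cont_ker m
    have h2 : Continuous fun z : ℝ × ℝ => ker m (z.1 - z.2) * conv m j z.2 := by fun_prop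
    exact h2

theorem conv_nonneg (m j : ℕ) {y : ℝ} (hy : 0 ≤ y) : 0 ≤ conv m j y := by
  induction j generalizing y with
  | zero => exact ker_nonneg m y
  | succ j ih =>
    show 0 ≤ ∫ x in (0 : ℝ)..y, ker m (y - x) * conv m j x
    refine intervalIntegral.integral_nonneg hy fun x hx => ?_
    exact mul_nonneg (ker_nonneg m _) (ih hx.1)

/-- weighted inequality between the geometric and the arithmetic mean -/
theorem amgm (k : ℕ) {a b : ℝ} (ha : 0 ≤ a) (hb : 0 ≤ b) :
    a * b ^ k ≤ ((a + k * b) / (k + 1)) ^ (k + 1) := by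
  rcases hb.eq_or_lt with rfl | hb
  · rcases Nat.eq_zero_or_pos k with rfl | hk
    · simp
    · rw [zero_pow hk.ne', mul_zero]
      positivity
  · have hk : (0 : ℝ) < (k : ℝ) + 1 := by positivity
    have h := one_add_mul_le_pow (a := (a - b) / ((k + 1) * b)) (n := k + 1) (by
      rw [le_div_iff₀ (by positivity)]
      nlinarith [mul_nonneg (Nat.cast_nonneg k : (0 : ℝ) ≤ k) hb.le])
    have e1 : 1 + ((k + 1 : ℕ) : ℝ) * ((a - b) / ((k + 1) * b)) = a / b := by
      push_cast
      field_simp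
      ring
    have e2 : 1 + (a - b) / ((k + 1) * b) = ((a + k * b) / (k + 1)) / b := by
      field_simp
      ring
    rw [e1, e2, div_pow, div_le_div_iff₀ hb (by positivity)] at h
    have h2 : a * b ^ k * b ≤ ((a + k * b) / (k + 1)) ^ (k + 1) * b := by
      calc a * b ^ k * b = a * b ^ (k + 1) := by ring
        _ ≤ _ := h
    exact le_of_mul_le_mul_right h2 hb

theorem conv_le' (m j : ℕ) {y : ℝ} (hy : 0 ≤ y) :
    conv m j y ≤ y ^ j * (y / (j + 1)) ^ (2 * m * (j + 1)) := by
  induction j generalizing y with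
  | zero =>
    have h := ker_le m hy
    simpa [conv] using h
  | succ j ih =>
    have h1 : conv m (j + 1) y = ∫ x in (0 : ℝ)..y, ker m (y - x) * conv m j x := rfl
    have hc : Continuous fun x : ℝ => ker m (y - x) * conv m j x := by
      have h2 := cont_ker m
      have h3 := cont_conv m j
      fun_prop
    have h4 : ∀ x ∈ Set.Icc (0 : ℝ) y, ker m (y - x) * conv m j x ≤
        y ^ j * ((y / (j + 1 + 1)) ^ (j + 2)) ^ (2 * m) := by
      intro x hx
      have hx0 : 0 ≤ x := hx.1
      have hxy : 0 ≤ y - x := by linarith [hx.2]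
      have h5 := ker_le m hxy
      have h6 := ih hx0
      have h7 : ker m (y - x) * conv m j x ≤
          (y - x) ^ (2 * m) * (x ^ j * (x / (j + 1)) ^ (2 * m * (j + 1))) :=
        mul_le_mul h5 h6 (conv_nonneg m j hx0) (by positivity)
      have h8 := amgm (j + 1) hxy (by positivity : 0 ≤ x / ((j : ℝ) + 1))
      have e1 : (y - x + ((j + 1 : ℕ) : ℝ) * (x / ((j : ℝ) + 1))) / (((j + 1 : ℕ) : ℝ) + 1) =
          y / (j + 1 + 1) := by
        push_cast
        field_simp
        ring
      rw [e1] at h8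
      have h9 : ((y - x) * (x / ((j : ℝ) + 1)) ^ (j + 1)) ^ (2 * m) ≤
          ((y / (j + 1 + 1)) ^ (j + 2)) ^ (2 * m) :=
        pow_le_pow_left₀ (by positivity) h8 _
      have h10 : x ^ j ≤ y ^ j := pow_le_pow_left₀ hx0 hx.2 _
      have e2 : (y - x) ^ (2 * m) * (x ^ j * (x / (j + 1)) ^ (2 * m * (j + 1))) =
          x ^ j * ((y - x) * (x / ((j : ℝ) + 1)) ^ (j + 1)) ^ (2 * m) := by
        rw [mul_pow, ← pow_mul, Nat.mul_comm (j + 1) (2 * m)]
        ring
      refine h7.trans ?_
      rw [e2]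
      exact mul_le_mul h10 h9 (by positivity) (by positivity)
    have h5 : ∫ x in (0 : ℝ)..y, ker m (y - x) * conv m j x ≤
        ∫ _x in (0 : ℝ)..y, y ^ j * ((y / (j + 1 + 1)) ^ (j + 2)) ^ (2 * m) :=
      intervalIntegral.integral_mono_on hy (hc.intervalIntegrable _ _)
        (continuous_const.intervalIntegrable _ _) h4
    rw [intervalIntegral.integral_const, sub_zero, smul_eq_mul] at h5
    rw [h1]
    refine h5.trans (le_of_eq ?_)
    push_cast
    rw [← pow_mul, pow_succ y j, Nat.mul_comm (j + 2) (2 * m)]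
    ring

/-- Block MB1 -/
theorem conv_le (m n : ℕ) :
    conv m n Real.pi ≤ Real.pi ^ n * (Real.pi / (n + 1)) ^ (2 * m * (n + 1)) :=
  conv_le' m n Real.pi_pos.le

theorem conv_ge' (m j : ℕ) {y : ℝ} (hy : 0 ≤ y) (hy' : y ≤ Real.pi) :
    (y / 4 ^ j) ^ j * (2 * y / (Real.pi * 4 ^ j)) ^ (2 * m * (j + 1)) ≤ conv m j y := by
  induction j generalizing y with
  | zero =>
    have h := le_ker m hy hy'
    simpa [conv] using h
  | succ j ih =>
    have hpi := Real.pi_pos
    have hc : Continuous fun x : ℝ => ker m (y - x) * conv m j x := by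
      have h2 := cont_ker m
      have h3 := cont_conv m j
      fun_prop
    have hI : ∀ a b : ℝ, IntervalIntegrable (fun x : ℝ => ker m (y - x) * conv m j x)
        MeasureTheory.volume a b := fun a b => hc.intervalIntegrable _ _
    have h1 : conv m (j + 1) y = ∫ x in (0 : ℝ)..y, ker m (y - x) * conv m j x := rfl
    have hpos : ∀ a b : ℝ, 0 ≤ a → a ≤ b →
        0 ≤ ∫ x in a..b, ker m (y - x) * conv m j x := by
      intro a b ha hab
      refine intervalIntegral.integral_nonneg hab fun x hx => ?_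
      exact mul_nonneg (ker_nonneg m _) (conv_nonneg m j (ha.trans hx.1))
    have h2 : ∫ x in (y / 4)..(y / 2), ker m (y - x) * conv m j x ≤ conv m (j + 1) y := by
      have e1 := intervalIntegral.integral_add_adjacent_intervals (hI 0 (y / 4)) (hI (y / 4) (y / 2))
      have e2 := intervalIntegral.integral_add_adjacent_intervals (hI 0 (y / 2)) (hI (y / 2) y)
      have p1 := hpos 0 (y / 4) le_rfl (by linarith)
      have p2 := hpos (y / 2) y (by linarith) (by linarith)
      rw [h1]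
      linarith
    set A : ℝ := (y / Real.pi) ^ (2 * m) *
      ((y / 4 ^ (j + 1)) ^ j * (2 * y / (Real.pi * 4 ^ (j + 1))) ^ (2 * m * (j + 1))) with hA
    have h3 : ∀ x ∈ Set.Icc (y / 4) (y / 2), A ≤ ker m (y - x) * conv m j x := by
      intro x hx
      have hx1 : y / 4 ≤ x := hx.1
      have hx2 : x ≤ y / 2 := hx.2
      have hx0 : 0 ≤ x := le_trans (by linarith) hx1
      have h4 := le_ker m (y := y - x) (by linarith) (by linarith)
      have h5 := ih hx0 (by linarith)
      have h6 : y / Real.pi ≤ 2 * (y - x) / Real.pi :=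
        div_le_div_of_nonneg_right (by linarith) hpi.le
      have h7 : (y / Real.pi) ^ (2 * m) ≤ ker m (y - x) :=
        (pow_le_pow_left₀ (by positivity) h6 _).trans h4
      have h4j : (0 : ℝ) < 4 ^ j := by positivity
      have h8 : y / 4 ^ (j + 1) ≤ x / 4 ^ j := by
        rw [pow_succ, div_le_div_iff₀ (by positivity) h4j]
        nlinarith
      have h9 : 2 * y / (Real.pi * 4 ^ (j + 1)) ≤ 2 * x / (Real.pi * 4 ^ j) := by
        have e : 2 * y / (Real.pi * 4 ^ (j + 1)) = 2 / Real.pi * (y / 4 ^ (j + 1)) := by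
          field_simp
        have e' : 2 * x / (Real.pi * 4 ^ j) = 2 / Real.pi * (x / 4 ^ j) := by
          field_simp
        rw [e, e']
        exact mul_le_mul_of_nonneg_left h8 (by positivity)
      have h10 : (y / 4 ^ (j + 1)) ^ j * (2 * y / (Real.pi * 4 ^ (j + 1))) ^ (2 * m * (j + 1)) ≤
          (x / 4 ^ j) ^ j * (2 * x / (Real.pi * 4 ^ j)) ^ (2 * m * (j + 1)) :=
        mul_le_mul (pow_le_pow_left₀ (by positivity) h8 _)
          (pow_le_pow_left₀ (by positivity) h9 _) (by positivity) (by positivity)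
      exact mul_le_mul h7 (h10.trans h5) (by positivity) (ker_nonneg m _)
    have h4 : ∫ _x in (y / 4)..(y / 2), A ≤
        ∫ x in (y / 4)..(y / 2), ker m (y - x) * conv m j x :=
      intervalIntegral.integral_mono_on (by linarith) (continuous_const.intervalIntegrable _ _)
        (hI _ _) h3
    rw [intervalIntegral.integral_const, smul_eq_mul] at h4
    refine le_trans ?_ (h4.trans h2)
    have e1 : y / 2 - y / 4 = y / 4 := by ring
    rw [e1, hA]
    have h41 : (1 : ℝ) ≤ 4 ^ j := one_le_pow₀ (by norm_num)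
    have h5 : y / 4 ^ (j + 1) ≤ y / 4 := by
      refine div_le_div_of_nonneg_left hy (by norm_num) ?_
      rw [pow_succ]
      linarith
    have h6 : 2 * y / (Real.pi * 4 ^ (j + 1)) ≤ y / Real.pi := by
      rw [div_le_div_iff₀ (by positivity) hpi, pow_succ]
      nlinarith [mul_nonneg hy hpi.le, mul_nonneg (mul_nonneg hy hpi.le) (sub_nonneg.2 h41)]
    calc (y / 4 ^ (j + 1)) ^ (j + 1) * (2 * y / (Real.pi * 4 ^ (j + 1))) ^ (2 * m * (j + 1 + 1))
        = (y / 4 ^ (j + 1)) * ((2 * y / (Real.pi * 4 ^ (j + 1))) ^ (2 * m) *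
          ((y / 4 ^ (j + 1)) ^ j * (2 * y / (Real.pi * 4 ^ (j + 1))) ^ (2 * m * (j + 1)))) := by
          ring
      _ ≤ (y / 4) * ((y / Real.pi) ^ (2 * m) *
          ((y / 4 ^ (j + 1)) ^ j * (2 * y / (Real.pi * 4 ^ (j + 1))) ^ (2 * m * (j + 1)))) := by
          refine mul_le_mul h5 ?_ (by positivity) (by positivity)
          exact mul_le_mul_of_nonneg_right (pow_le_pow_left₀ (by positivity) h6 _) (by positivity)

/-- Block MB2 -/
theorem conv_ge (m n : ℕ) :
    (Real.pi / 4 ^ n) ^ n * (2 / 4 ^ n) ^ (2 * m * (n + 1)) ≤ conv m n Real.pi := by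
  have h := conv_ge' m n Real.pi_pos.le le_rfl
  have e : 2 * Real.pi / (Real.pi * 4 ^ n) = 2 / 4 ^ n := by
    have := Real.pi_ne_zero
    field_simp
  rwa [e] at h

/-- Block MC -/
theorem lcm_bound : ∃ K : ℕ, 1 ≤ K ∧ ∀ N : ℕ, ∃ L : ℕ, 1 ≤ L ∧ L ≤ K ^ N ∧
    ∀ k, 1 ≤ k → k ≤ N → k ∣ L := by
  refine ⟨⌈Real.exp (Real.log 4 + 4)⌉₊, ?_, fun N => ⟨Nat.lcmUpto N,
    Nat.lcmUpto_pos N, ?_, fun k hk hkN => ?_⟩⟩
  · exact Nat.one_le_ceil_iff.2 (Real.exp_pos _)
  · have h1 := Chebyshev.psi_le_const_mul_self (Nat.cast_nonneg N : (0 : ℝ) ≤ N)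
    rw [Chebyshev.psi_eq_log_lcmUpto] at h1
    have h2 : (0 : ℝ) < (Nat.lcmUpto N : ℝ) := by
      exact_mod_cast Nat.lcmUpto_pos N
    have h3 : (Nat.lcmUpto N : ℝ) ≤ Real.exp ((Real.log 4 + 4) * N) := by
      rw [← Real.log_le_iff_le_exp h2]
      exact h1
    have h4 : Real.exp ((Real.log 4 + 4) * N) = (Real.exp (Real.log 4 + 4)) ^ N := by
      rw [← Real.exp_nat_mul, mul_comm]
    have h5 : (Real.exp (Real.log 4 + 4)) ^ N ≤ ((⌈Real.exp (Real.log 4 + 4)⌉₊ : ℕ) : ℝ) ^ N :=
      pow_le_pow_left₀ (Real.exp_pos _).le (Nat.le_ceil _) _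
    rw [h4] at h3
    exact_mod_cast h3.trans h5
  · exact Finset.dvd_lcm (Finset.mem_Icc.2 ⟨hk, hkN⟩)

end Pool.Agent.Lib_helper87.PIXB
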