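import Pool.Agent.Lib_helper53.PIX.Defs

/-!
# The iterated convolutions of `(2 sin (y/2)) ^ (2m)` at `π` are integer polynomials in `π` (block MA)

`KK m L j H` is the class of the functions `∑ b l p * (y ^ l / l!) * exp (i (p - m) y)`, `l ≤ j`,
`p ≤ 2m`, with `L ^ (j - l) * b l p` a Gaussian integer and `∑ |b l p| ≤ H`.
-/

set_option autoImplicit false

namespace Pool.Agent.Lib_helper87.PIXA

open Pool.Agent.Lib_helper53.PIX Finset Complex

/-- Gaussian integers in `ℂ` -/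
def GI (z : ℂ) : Prop := ∃ a b : ℤ, z = (a : ℂ) + (b : ℂ) * I

theorem GI.zero : GI 0 := ⟨0, 0, by simp⟩

theorem GI.int (n : ℤ) : GI (n : ℂ) := ⟨n, 0, by simp⟩

theorem GI.nat (n : ℕ) : GI (n : ℂ) := ⟨n, 0, by simp⟩

theorem GI.add {z w : ℂ} (hz : GI z) (hw : GI w) : GI (z + w) := by
  obtain ⟨a, b, rfl⟩ := hz
  obtain ⟨c, d, rfl⟩ := hw
  refine ⟨a + c, b + d, ?_⟩
  push_cast
  ring

theorem GI.mul {z w : ℂ} (hz : GI z) (hw : GI w) : GI (z * w) := by
  obtain ⟨a, b, rfl⟩ := hz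
  obtain ⟨c, d, rfl⟩ := hw
  refine ⟨a * c - b * d, a * d + b * c, ?_⟩
  push_cast
  linear_combination (b : ℂ) * d * I_mul_I

theorem GI.neg {z : ℂ} (hz : GI z) : GI (-z) := by
  obtain ⟨a, b, rfl⟩ := hz
  refine ⟨-a, -b, ?_⟩
  push_cast
  ring

/-- the basic functions -/
noncomputable def ee (m l p : ℕ) (y : ℝ) : ℂ :=
  ((y : ℂ) ^ l / (l.factorial : ℂ)) * Complex.exp (I * ((p : ℂ) - (m : ℂ)) * (y : ℂ))

/-- the class -/
def KK (m L j : ℕ) (H : ℝ) (f : ℝ → ℂ) : Prop :=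
  ∃ b : ℕ → ℕ → ℂ,
    (∀ y, f y = ∑ l ∈ range (j + 1), ∑ p ∈ range (2 * m + 1), b l p * ee m l p y) ∧
    (∀ l p, GI ((L : ℂ) ^ (j - l) * b l p)) ∧
    ∑ l ∈ range (j + 1), ∑ p ∈ range (2 * m + 1), ‖b l p‖ ≤ H

theorem KK.mono {m L j : ℕ} {H H' : ℝ} {f : ℝ → ℂ} (h : KK m L j H f) (hH : H ≤ H') :
    KK m L j H' f := by
  obtain ⟨b, h1, h2, h3⟩ := h
  exact ⟨b, h1, h2, h3.trans hH⟩

theorem KK.zero (m L j : ℕ) : KK m L j 0 (fun _ => 0) :=
  ⟨fun _ _ => 0, by simp, fun l p => by simpa using GI.zero, by simp⟩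

theorem KK.add {m L j : ℕ} {H H' : ℝ} {f g : ℝ → ℂ} (hf : KK m L j H f) (hg : KK m L j H' g) :
    KK m L j (H + H') (fun y => f y + g y) := by
  obtain ⟨b, h1, h2, h3⟩ := hf
  obtain ⟨c, k1, k2, k3⟩ := hg
  refine ⟨fun l p => b l p + c l p, fun y => ?_, fun l p => ?_, ?_⟩
  · show f y + g y = _
    rw [h1 y, k1 y, ← Finset.sum_add_distrib]
    refine Finset.sum_congr rfl fun l _ => ?_
    rw [← Finset.sum_add_distrib]
    exact Finset.sum_congr rfl fun p _ => (add_mul _ _ _).symm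
  · rw [mul_add]
    exact (h2 l p).add (k2 l p)
  · refine le_trans ?_ (add_le_add h3 k3)
    rw [← Finset.sum_add_distrib]
    refine Finset.sum_le_sum fun l _ => ?_
    rw [← Finset.sum_add_distrib]
    exact Finset.sum_le_sum fun p _ => norm_add_le _ _

/-- multiplication by a Gaussian integer of norm `≤ N` -/
theorem KK.smul {m L j : ℕ} {H N : ℝ} {f : ℝ → ℂ} (hf : KK m L j H f) {c : ℂ} (hc : GI c)
    (hN : ‖c‖ ≤ N) : KK m L j (N * H) (fun y => c * f y) := by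
  obtain ⟨b, h1, h2, h3⟩ := hf
  have h0 : 0 ≤ ∑ l ∈ range (j + 1), ∑ p ∈ range (2 * m + 1), ‖b l p‖ :=
    Finset.sum_nonneg fun _ _ => Finset.sum_nonneg fun _ _ => norm_nonneg _
  refine ⟨fun l p => c * b l p, fun y => ?_, fun l p => ?_, ?_⟩
  · show c * f y = _
    rw [h1 y, Finset.mul_sum]
    refine Finset.sum_congr rfl fun l _ => ?_
    rw [Finset.mul_sum]
    exact Finset.sum_congr rfl fun p _ => (mul_assoc _ _ _).symm
  · have h := hc.mul (h2 l p)
    rwa [mul_left_comm] at h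
  · have e : ∑ l ∈ range (j + 1), ∑ p ∈ range (2 * m + 1), ‖c * b l p‖ =
        ‖c‖ * ∑ l ∈ range (j + 1), ∑ p ∈ range (2 * m + 1), ‖b l p‖ := by
      rw [Finset.mul_sum]
      refine Finset.sum_congr rfl fun l _ => ?_
      rw [Finset.mul_sum]
      exact Finset.sum_congr rfl fun p _ => norm_mul _ _
    rw [e]
    exact mul_le_mul hN h3 h0 ((norm_nonneg _).trans hN)

theorem KK.sum {ι : Type} {m L j : ℕ} (s : Finset ι) {H : ι → ℝ} {f : ι → ℝ → ℂ}
    (h : ∀ i ∈ s, KK m L j (H i) (f i)) :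
    KK m L j (∑ i ∈ s, H i) (fun y => ∑ i ∈ s, f i y) := by
  classical
  induction s using Finset.induction_on with
  | empty => simpa using KK.zero m L j
  | insert a s ha ih =>
    have h1 := (h a (Finset.mem_insert_self a s)).add
      (ih fun i hi => h i (Finset.mem_insert_of_mem hi))
    simpa only [Finset.sum_insert ha] using h1

theorem KK.single {m L j l p : ℕ} (hl : l ≤ j) (hp : p ≤ 2 * m) {c : ℂ}
    (hc : GI ((L : ℂ) ^ (j - l) * c)) : KK m L j ‖c‖ (fun y => c * ee m l p y) := by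
  classical
  refine ⟨fun l' p' => if l' = l ∧ p' = p then c else 0, fun y => ?_, fun l' p' => ?_, ?_⟩
  · rw [Finset.sum_eq_single_of_mem l (Finset.mem_range.2 (by omega)),
      Finset.sum_eq_single_of_mem p (Finset.mem_range.2 (by omega))]
    · simp
    · intro p' _ hp'
      simp [hp']
    · intro l' _ hl'
      exact Finset.sum_eq_zero fun p' _ => by simp [hl']
  · by_cases h : l' = l ∧ p' = p
    · obtain ⟨rfl, rfl⟩ := h
      simpa using hc
    · simpa [h] using GI.zero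
  · rw [Finset.sum_eq_single_of_mem l (Finset.mem_range.2 (by omega)),
      Finset.sum_eq_single_of_mem p (Finset.mem_range.2 (by omega))]
    · simp
    · intro p' _ hp'
      simp [hp']
    · intro l' _ hl'
      exact Finset.sum_eq_zero fun p' _ => by simp [hl']

/-! ### the elementary integrals -/

/-- the primitive of `(x ^ l / l!) e ^ (D x)` which vanishes at `0` -/
noncomputable def GG (D : ℂ) : ℕ → ℝ → ℂ
  | 0 => fun y => (Complex.exp (D * y) - 1) / D
  | (l + 1) => fun y =>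
      (((y : ℂ) ^ (l + 1) / ((l + 1).factorial : ℂ)) * Complex.exp (D * y) - GG D l y) / D

theorem GG_zero (D : ℂ) (l : ℕ) : GG D l 0 = 0 := by
  induction l with
  | zero => simp [GG]
  | succ l ih => simp [GG, ih]

theorem hasDerivAt_exp_D (D : ℂ) (y : ℝ) :
    HasDerivAt (fun x : ℝ => Complex.exp (D * x)) (D * Complex.exp (D * y)) y := by
  have h1 : HasDerivAt (fun x : ℝ => D * (x : ℂ)) D y := by
    simpa using ((hasDerivAt_id y).ofReal_comp).const_mul D
  have h2 := h1.cexp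
  rwa [mul_comm] at h2

theorem hasDerivAt_pow_fact (l : ℕ) (y : ℝ) :
    HasDerivAt (fun x : ℝ => (x : ℂ) ^ (l + 1) / ((l + 1).factorial : ℂ))
      ((y : ℂ) ^ l / (l.factorial : ℂ)) y := by
  have h1 : HasDerivAt (fun x : ℝ => (x : ℂ)) 1 y := by
    simpa using (hasDerivAt_id y).ofReal_comp
  have h2 := (h1.pow (l + 1)).div_const ((l + 1).factorial : ℂ)
  have e : ((l + 1 : ℕ) : ℂ) * (y : ℂ) ^ (l + 1 - 1) * 1 / ((l + 1).factorial : ℂ) =
      (y : ℂ) ^ l / (l.factorial : ℂ) := by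
    have h3 : ((l + 1 : ℕ) : ℂ) ≠ 0 := by exact_mod_cast Nat.succ_ne_zero l
    have h4 : (l.factorial : ℂ) ≠ 0 := by exact_mod_cast Nat.factorial_ne_zero l
    rw [Nat.factorial_succ, Nat.cast_mul, Nat.add_sub_cancel, mul_one, mul_div_mul_left _ _ h3]
  rw [← e]
  exact h2

theorem hasDerivAt_GG {D : ℂ} (hD : D ≠ 0) (l : ℕ) (y : ℝ) :
    HasDerivAt (GG D l) (((y : ℂ) ^ l / (l.factorial : ℂ)) * Complex.exp (D * y)) y := by
  induction l with
  | zero =>
    have h := ((hasDerivAt_exp_D D y).sub_const 1).div_const D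
    have e : D * Complex.exp (D * y) / D =
        ((y : ℂ) ^ 0 / ((0 : ℕ).factorial : ℂ)) * Complex.exp (D * y) := by
      rw [mul_div_cancel_left₀ _ hD]
      simp
    rw [← e]
    exact h
  | succ l ih =>
    have h := (((hasDerivAt_pow_fact l y).mul (hasDerivAt_exp_D D y)).sub ih).div_const D
    have e : ((y : ℂ) ^ l / (l.factorial : ℂ) * Complex.exp (D * y) +
        (y : ℂ) ^ (l + 1) / ((l + 1).factorial : ℂ) * (D * Complex.exp (D * y)) -
        (y : ℂ) ^ l / (l.factorial : ℂ) * Complex.exp (D * y)) / D =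
        (y : ℂ) ^ (l + 1) / ((l + 1).factorial : ℂ) * Complex.exp (D * y) := by
      field_simp
      ring
    rw [← e]
    exact h

theorem integral_GG {D : ℂ} (hD : D ≠ 0) (l : ℕ) (y : ℝ) :
    ∫ x in (0 : ℝ)..y, ((x : ℂ) ^ l / (l.factorial : ℂ)) * Complex.exp (D * x) = GG D l y := by
  rw [intervalIntegral.integral_eq_sub_of_hasDerivAt (f := GG D l)
    (fun x _ => hasDerivAt_GG hD l x), GG_zero, sub_zero]
  refine Continuous.intervalIntegrable ?_ _ _
  fun_prop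

theorem integral_pow_fact (l : ℕ) (y : ℝ) :
    ∫ x in (0 : ℝ)..y, ((x : ℂ) ^ l / (l.factorial : ℂ)) =
      (y : ℂ) ^ (l + 1) / ((l + 1).factorial : ℂ) := by
  rw [intervalIntegral.integral_eq_sub_of_hasDerivAt
    (f := fun x : ℝ => (x : ℂ) ^ (l + 1) / ((l + 1).factorial : ℂ))
    (fun x _ => hasDerivAt_pow_fact l x)]
  · simp
  · refine Continuous.intervalIntegrable ?_ _ _
    fun_prop

/-- `L / D` is a Gaussian integer for `D = i (p - q)` -/
theorem GI_div {m L : ℕ} (hL : ∀ k, 1 ≤ k → k ≤ 2 * m → k ∣ L) {p q : ℕ} (hp : p ≤ 2 * m)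
    (hq : q ≤ 2 * m) (hpq : p ≠ q) : GI ((L : ℂ) / (I * ((p : ℂ) - (q : ℂ)))) := by
  rcases lt_or_gt_of_ne hpq with h | h
  · obtain ⟨c, hc⟩ := hL (q - p) (by omega) (by omega)
    refine ⟨0, c, ?_⟩
    have e : (p : ℂ) - (q : ℂ) = -((q - p : ℕ) : ℂ) := by
      rw [Nat.cast_sub h.le]
      ring
    have h0 : ((q - p : ℕ) : ℂ) ≠ 0 := by
      exact_mod_cast (Nat.sub_pos_of_lt h).ne'
    rw [e, hc, div_eq_iff (mul_ne_zero I_ne_zero (neg_ne_zero.2 h0))]
    push_cast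
    linear_combination ((c : ℂ) * ((q - p : ℕ) : ℂ)) * I_mul_I
  · obtain ⟨c, hc⟩ := hL (p - q) (by omega) (by omega)
    refine ⟨0, -c, ?_⟩
    have e : (p : ℂ) - (q : ℂ) = ((p - q : ℕ) : ℂ) := by
      rw [Nat.cast_sub h.le]
    have h0 : ((p - q : ℕ) : ℂ) ≠ 0 := by
      exact_mod_cast (Nat.sub_pos_of_lt h).ne'
    rw [e, hc, div_eq_iff (mul_ne_zero I_ne_zero h0)]
    push_cast
    linear_combination ((c : ℂ) * ((p - q : ℕ) : ℂ)) * I_mul_I

theorem norm_D {p q : ℕ} (hpq : p ≠ q) : 1 ≤ ‖I * ((p : ℂ) - (q : ℂ))‖ := by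
  rw [norm_mul, norm_I, one_mul]
  have e : (p : ℂ) - (q : ℂ) = (((p : ℤ) - (q : ℤ) : ℤ) : ℂ) := by push_cast; rfl
  rw [e, Complex.norm_intCast]
  have h : (1 : ℤ) ≤ |(p : ℤ) - (q : ℤ)| := by
    refine Int.one_le_abs ?_
    omega
  exact_mod_cast h

theorem D_ne {p q : ℕ} (hpq : p ≠ q) : I * ((p : ℂ) - (q : ℂ)) ≠ 0 := by
  intro h
  have h1 := norm_D hpq
  rw [h, norm_zero] at h1
  linarith

/-- the function `e ^ (i (q - m) y) c G_l(y)` -/
theorem KK_GG {m L j : ℕ} (hL : ∀ k, 1 ≤ k → k ≤ 2 * m → k ∣ L) {p q : ℕ} (hp : p ≤ 2 * m)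
    (hq : q ≤ 2 * m) (hpq : p ≠ q) (l : ℕ) (hl : l ≤ j) (c : ℂ)
    (hc : GI ((L : ℂ) ^ (j - l) * c)) :
    KK m L (j + 1) ((l + 2 : ℕ) * ‖c‖) (fun y =>
      Complex.exp (I * ((q : ℂ) - (m : ℂ)) * (y : ℂ)) *
        (c * GG (I * ((p : ℂ) - (q : ℂ))) l y)) := by
  have hD := D_ne hpq
  have hn := norm_D hpq
  have hmain : ∀ y : ℝ, Complex.exp (I * ((q : ℂ) - (m : ℂ)) * (y : ℂ)) *
      Complex.exp (I * ((p : ℂ) - (q : ℂ)) * (y : ℂ)) =
      Complex.exp (I * ((p : ℂ) - (m : ℂ)) * (y : ℂ)) := by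
    intro y
    rw [← Complex.exp_add]
    congr 1
    ring
  have hle : ∀ c : ℂ, ‖c / (I * ((p : ℂ) - (q : ℂ)))‖ ≤ ‖c‖ := by
    intro c
    rw [norm_div]
    exact div_le_self (norm_nonneg _) hn
  induction l generalizing c with
  | zero =>
    have h1 : GI ((L : ℂ) ^ (j + 1 - 0) * (c / (I * ((p : ℂ) - (q : ℂ))))) := by
      have h := hc.mul (GI_div hL hp hq hpq)
      have e : (L : ℂ) ^ (j + 1 - 0) * (c / (I * ((p : ℂ) - (q : ℂ)))) =
          (L : ℂ) ^ (j - 0) * c * ((L : ℂ) / (I * ((p : ℂ) - (q : ℂ)))) := by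
        rw [Nat.sub_zero, Nat.sub_zero, pow_succ]
        ring
      rw [e]
      exact h
    have h2 : GI ((L : ℂ) ^ (j + 1 - 0) * (-(c / (I * ((p : ℂ) - (q : ℂ)))))) := by
      rw [mul_neg]
      exact h1.neg
    have h3 := (KK.single (Nat.zero_le (j + 1)) hp h1).add
      (KK.single (Nat.zero_le (j + 1)) hq h2)
    have e : (fun y : ℝ => Complex.exp (I * ((q : ℂ) - (m : ℂ)) * (y : ℂ)) *
        (c * GG (I * ((p : ℂ) - (q : ℂ))) 0 y)) = fun y : ℝ =>
        c / (I * ((p : ℂ) - (q : ℂ))) * ee m 0 p y +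
          -(c / (I * ((p : ℂ) - (q : ℂ)))) * ee m 0 q y := by
      funext y
      rw [ee, ee, ← hmain y]
      simp only [GG, pow_zero, Nat.factorial_zero, Nat.cast_one, div_one, one_mul]
      ring
    rw [e]
    refine h3.mono ?_
    rw [norm_neg]
    have := hle c
    push_cast
    linarith
  | succ l ih =>
    have e1 : (L : ℂ) ^ (j + 1 - (l + 1)) * (c / (I * ((p : ℂ) - (q : ℂ)))) =
        (L : ℂ) ^ (j - (l + 1)) * c * ((L : ℂ) / (I * ((p : ℂ) - (q : ℂ)))) := by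
      have : j + 1 - (l + 1) = (j - (l + 1)) + 1 := by omega
      rw [this, pow_succ]
      ring
    have h1 : GI ((L : ℂ) ^ (j + 1 - (l + 1)) * (c / (I * ((p : ℂ) - (q : ℂ))))) := by
      rw [e1]
      exact hc.mul (GI_div hL hp hq hpq)
    have h2 : GI ((L : ℂ) ^ (j - l) * (-(c / (I * ((p : ℂ) - (q : ℂ)))))) := by
      have : j - l = j + 1 - (l + 1) := by omega
      rw [this, mul_neg]
      exact h1.neg
    have h3 := (KK.single (show l + 1 ≤ j + 1 by omega) hp h1).add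
      (ih (by omega) (-(c / (I * ((p : ℂ) - (q : ℂ))))) h2)
    have e : (fun y : ℝ => Complex.exp (I * ((q : ℂ) - (m : ℂ)) * (y : ℂ)) *
        (c * GG (I * ((p : ℂ) - (q : ℂ))) (l + 1) y)) = fun y : ℝ =>
        c / (I * ((p : ℂ) - (q : ℂ))) * ee m (l + 1) p y +
          Complex.exp (I * ((q : ℂ) - (m : ℂ)) * (y : ℂ)) *
            (-(c / (I * ((p : ℂ) - (q : ℂ)))) * GG (I * ((p : ℂ) - (q : ℂ))) l y) := by
      funext y
      rw [ee, ← hmain y]
      simp only [GG]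
      ring
    rw [e]
    refine h3.mono ?_
    rw [norm_neg]
    have h5 := hle c
    have h6 : ((l + 2 : ℕ) : ℝ) * ‖c / (I * ((p : ℂ) - (q : ℂ)))‖ ≤ ((l + 2 : ℕ) : ℝ) * ‖c‖ :=
      mul_le_mul_of_nonneg_left h5 (Nat.cast_nonneg _)
    push_cast at h6 ⊢
    linarith

theorem cont_ee (m l p : ℕ) : Continuous (ee m l p) := by
  unfold ee
  fun_prop

/-- the elementary step -/
theorem KK_int {m L j : ℕ} (hL : ∀ k, 1 ≤ k → k ≤ 2 * m → k ∣ L) {p q : ℕ} (hp : p ≤ 2 * m)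
    (hq : q ≤ 2 * m) (l : ℕ) (hl : l ≤ j) (c : ℂ) (hc : GI ((L : ℂ) ^ (j - l) * c)) :
    KK m L (j + 1) ((j + 2 : ℕ) * ‖c‖) (fun y => ∫ x in (0 : ℝ)..y,
      Complex.exp (I * ((q : ℂ) - (m : ℂ)) * ((y : ℂ) - (x : ℂ))) * (c * ee m l p x)) := by
  have hmono : ((l + 2 : ℕ) : ℝ) * ‖c‖ ≤ ((j + 2 : ℕ) : ℝ) * ‖c‖ := by
    refine mul_le_mul_of_nonneg_right ?_ (norm_nonneg _)
    exact_mod_cast (by omega : l + 2 ≤ j + 2)
  by_cases hpq : p = q
  · subst hpq
    have e : (fun y : ℝ => ∫ x in (0 : ℝ)..y,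
        Complex.exp (I * ((p : ℂ) - (m : ℂ)) * ((y : ℂ) - (x : ℂ))) * (c * ee m l p x)) =
        fun y : ℝ => c * ee m (l + 1) p y := by
      funext y
      have e1 : ∀ x : ℝ, Complex.exp (I * ((p : ℂ) - (m : ℂ)) * ((y : ℂ) - (x : ℂ))) *
          (c * ee m l p x) = (c * Complex.exp (I * ((p : ℂ) - (m : ℂ)) * (y : ℂ))) *
          ((x : ℂ) ^ l / (l.factorial : ℂ)) := by
        intro x
        have e2 : Complex.exp (I * ((p : ℂ) - (m : ℂ)) * (y : ℂ)) =
            Complex.exp (I * ((p : ℂ) - (m : ℂ)) * ((y : ℂ) - (x : ℂ))) *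
              Complex.exp (I * ((p : ℂ) - (m : ℂ)) * (x : ℂ)) := by
          rw [← Complex.exp_add]
          congr 1
          ring
        rw [e2, ee]
        ring
      simp only [e1]
      rw [intervalIntegral.integral_const_mul, integral_pow_fact, ee]
      ring
    rw [e]
    refine (KK.single (show l + 1 ≤ j + 1 by omega) hp ?_).mono ?_
    · have : j + 1 - (l + 1) = j - l := by omega
      rw [this]
      exact hc
    · refine le_trans ?_ hmono
      have := norm_nonneg c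
      push_cast
      nlinarith [(Nat.cast_nonneg l : (0 : ℝ) ≤ l)]
  · have e : (fun y : ℝ => ∫ x in (0 : ℝ)..y,
        Complex.exp (I * ((q : ℂ) - (m : ℂ)) * ((y : ℂ) - (x : ℂ))) * (c * ee m l p x)) =
        fun y : ℝ => Complex.exp (I * ((q : ℂ) - (m : ℂ)) * (y : ℂ)) *
          (c * GG (I * ((p : ℂ) - (q : ℂ))) l y) := by
      funext y
      have e1 : ∀ x : ℝ, Complex.exp (I * ((q : ℂ) - (m : ℂ)) * ((y : ℂ) - (x : ℂ))) *
          (c * ee m l p x) = (Complex.exp (I * ((q : ℂ) - (m : ℂ)) * (y : ℂ)) * c) *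
          (((x : ℂ) ^ l / (l.factorial : ℂ)) *
            Complex.exp (I * ((p : ℂ) - (q : ℂ)) * (x : ℂ))) := by
        intro x
        have e2 : Complex.exp (I * ((q : ℂ) - (m : ℂ)) * ((y : ℂ) - (x : ℂ))) *
            Complex.exp (I * ((p : ℂ) - (m : ℂ)) * (x : ℂ)) =
            Complex.exp (I * ((q : ℂ) - (m : ℂ)) * (y : ℂ)) *
              Complex.exp (I * ((p : ℂ) - (q : ℂ)) * (x : ℂ)) := by
          rw [← Complex.exp_add, ← Complex.exp_add]
          congr 1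
          ring
        rw [ee]
        linear_combination (c * ((x : ℂ) ^ l / (l.factorial : ℂ))) * e2
      simp only [e1]
      rw [intervalIntegral.integral_const_mul, integral_GG (D_ne hpq)]
      ring
    rw [e]
    exact (KK_GG hL hp hq hpq l hl c hc).mono hmono

/-! ### the kernel -/

theorem ker_eq (m : ℕ) (y : ℝ) : ((ker m y : ℝ) : ℂ) =
    ∑ q ∈ range (2 * m + 1), (((-1 : ℤ) ^ (m + q) * ((2 * m).choose q : ℤ) : ℤ) : ℂ) *
      Complex.exp (I * ((q : ℂ) - (m : ℂ)) * (y : ℂ)) := by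
  have h1 : (2 : ℂ) * Complex.sin ((y : ℂ) / 2) =
      -I * Complex.exp (-(I * (y : ℂ) / 2)) * (Complex.exp (I * (y : ℂ)) - 1) := by
    have h2 : Complex.exp (I * (y : ℂ)) =
        Complex.exp (I * (y : ℂ) / 2) * Complex.exp (I * (y : ℂ) / 2) := by
      rw [← Complex.exp_add]
      congr 1
      ring
    have h3 : Complex.exp (-(I * (y : ℂ) / 2)) * Complex.exp (I * (y : ℂ) / 2) = 1 := by
      rw [← Complex.exp_add]
      simp
    have h4 := Complex.two_sin ((y : ℂ) / 2)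
    have h5 : Complex.exp (-((y : ℂ) / 2) * I) = Complex.exp (-(I * (y : ℂ) / 2)) := by
      congr 1
      ring
    have h6 : Complex.exp (((y : ℂ) / 2) * I) = Complex.exp (I * (y : ℂ) / 2) := by
      congr 1
      ring
    rw [h4, h5, h6, h2]
    linear_combination (I * Complex.exp (I * (y : ℂ) / 2)) * h3
  have h2 : ((ker m y : ℝ) : ℂ) = ((2 : ℂ) * Complex.sin ((y : ℂ) / 2)) ^ (2 * m) := by
    rw [ker]
    push_cast
    rfl
  have h3 : (-I * Complex.exp (-(I * (y : ℂ) / 2))) ^ (2 * m) =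
      (-1 : ℂ) ^ m * Complex.exp (-(I * (m : ℂ) * (y : ℂ))) := by
    rw [mul_pow, ← Complex.exp_nat_mul, pow_mul]
    congr 1
    · congr 1
      rw [neg_sq, I_sq]
    · congr 1
      push_cast
      ring
  rw [h2, h1, mul_pow, h3, sub_eq_add_neg, add_pow, Finset.mul_sum]
  refine Finset.sum_congr rfl fun q hq => ?_
  have hq' : q ≤ 2 * m := by
    have := Finset.mem_range.1 hq
    omega
  have h4 : Complex.exp (I * (y : ℂ)) ^ q = Complex.exp ((q : ℂ) * (I * (y : ℂ))) :=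
    (Complex.exp_nat_mul _ _).symm
  have h5 : Complex.exp (I * ((q : ℂ) - (m : ℂ)) * (y : ℂ)) =
      Complex.exp (-(I * (m : ℂ) * (y : ℂ))) * Complex.exp ((q : ℂ) * (I * (y : ℂ))) := by
    rw [← Complex.exp_add]
    congr 1
    ring
  have h6 : (-1 : ℂ) ^ (2 * m - q) = (-1) ^ q := by
    have h7 : (-1 : ℂ) ^ (2 * m - q) * (-1) ^ q = 1 := by
      rw [← pow_add, Nat.sub_add_cancel hq', pow_mul]
      simp
    have h8 : (-1 : ℂ) ^ q * (-1) ^ q = 1 := by
      rw [← mul_pow]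
      simp
    have h9 : (-1 : ℂ) ^ q ≠ 0 := pow_ne_zero _ (by norm_num)
    exact mul_right_cancel₀ h9 (h7.trans h8.symm)
  rw [h4, h5, h6]
  push_cast
  rw [pow_add]
  ring

theorem choose_sum (m : ℕ) :
    ∑ q ∈ range (2 * m + 1), (((2 * m).choose q : ℕ) : ℝ) = (4 : ℝ) ^ m := by
  rw [← Nat.cast_sum, Nat.sum_range_choose, pow_mul]
  push_cast
  norm_num

theorem KK_ker (m L : ℕ) : KK m L 0 ((4 : ℝ) ^ m) (fun y => ((ker m y : ℝ) : ℂ)) := by
  have h : KK m L 0 (∑ q ∈ range (2 * m + 1), (((2 * m).choose q : ℕ) : ℝ))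
      (fun y => ∑ q ∈ range (2 * m + 1),
        (((-1 : ℤ) ^ (m + q) * ((2 * m).choose q : ℤ) : ℤ) : ℂ) * ee m 0 q y) := by
    refine KK.sum _ fun q hq => ?_
    have hq' : q ≤ 2 * m := by
      have := Finset.mem_range.1 hq
      omega
    refine (KK.single (le_refl 0) hq' ?_).mono ?_
    · simpa using GI.int ((-1 : ℤ) ^ (m + q) * ((2 * m).choose q : ℤ))
    · rw [Complex.norm_intCast]
      push_cast
      rw [abs_mul, abs_pow, abs_neg, abs_one, one_pow, one_mul, Nat.abs_cast]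
  rw [choose_sum] at h
  have e : (fun y : ℝ => ((ker m y : ℝ) : ℂ)) = fun y => ∑ q ∈ range (2 * m + 1),
      (((-1 : ℤ) ^ (m + q) * ((2 * m).choose q : ℤ) : ℤ) : ℂ) * ee m 0 q y := by
    funext y
    rw [ker_eq]
    refine Finset.sum_congr rfl fun q _ => ?_
    simp [ee]
  rw [e]
  exact h

/-- the convolution step -/
theorem KK_step {m L j : ℕ} (hL : ∀ k, 1 ≤ k → k ≤ 2 * m → k ∣ L) {H : ℝ}
    (h : KK m L j H (fun y => ((conv m j y : ℝ) : ℂ))) :
    KK m L (j + 1) ((4 : ℝ) ^ m * ((j + 2 : ℕ) * H))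
      (fun y => ((conv m (j + 1) y : ℝ) : ℂ)) := by
  obtain ⟨b, h1, h2, h3⟩ := h
  set cq : ℕ → ℤ := fun q => (-1 : ℤ) ^ (m + q) * ((2 * m).choose q : ℤ) with hcq
  have e : (fun y : ℝ => ((conv m (j + 1) y : ℝ) : ℂ)) = fun y : ℝ =>
      ∑ q ∈ range (2 * m + 1), ((cq q : ℤ) : ℂ) *
        ∑ l ∈ range (j + 1), ∑ p ∈ range (2 * m + 1), ∫ x in (0 : ℝ)..y,
          Complex.exp (I * ((q : ℂ) - (m : ℂ)) * ((y : ℂ) - (x : ℂ))) *
            (b l p * ee m l p x) := by
    funext y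
    have c1 : ∀ q l p : ℕ, Continuous fun x : ℝ =>
        Complex.exp (I * ((q : ℂ) - (m : ℂ)) * ((y : ℂ) - (x : ℂ))) *
            (b l p * ee m l p x) := by
      intro q l p
      have := cont_ee m l p
      fun_prop
    have e1 : ((conv m (j + 1) y : ℝ) : ℂ) =
        ∫ x in (0 : ℝ)..y, ((ker m (y - x) * conv m j x : ℝ) : ℂ) := by
      rw [intervalIntegral.integral_ofReal]
      rfl
    have e2 : ∀ x : ℝ, ((ker m (y - x) * conv m j x : ℝ) : ℂ) =
        ∑ q ∈ range (2 * m + 1), ((cq q : ℤ) : ℂ) *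
          ∑ l ∈ range (j + 1), ∑ p ∈ range (2 * m + 1),
            Complex.exp (I * ((q : ℂ) - (m : ℂ)) * ((y : ℂ) - (x : ℂ))) *
              (b l p * ee m l p x) := by
      intro x
      have h1' : ((conv m j x : ℝ) : ℂ) =
          ∑ l ∈ range (j + 1), ∑ p ∈ range (2 * m + 1), b l p * ee m l p x := h1 x
      rw [Complex.ofReal_mul, h1', ker_eq, Finset.sum_mul]
      refine Finset.sum_congr rfl fun q _ => ?_
      rw [mul_assoc, Finset.mul_sum]
      congr 1
      refine Finset.sum_congr rfl fun l _ => ?_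
      rw [Finset.mul_sum]
      refine Finset.sum_congr rfl fun p _ => ?_
      rw [Complex.ofReal_sub]
    rw [e1]
    simp only [e2]
    rw [intervalIntegral.integral_finsetSum]
    · refine Finset.sum_congr rfl fun q _ => ?_
      rw [intervalIntegral.integral_const_mul]
      congr 1
      rw [intervalIntegral.integral_finsetSum]
      · refine Finset.sum_congr rfl fun l _ => ?_
        rw [intervalIntegral.integral_finsetSum]
        intro p _
        exact (c1 q l p).intervalIntegrable _ _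
      · intro l _
        exact (continuous_finsetSum _ fun p _ => c1 q l p).intervalIntegrable _ _
    · intro q _
      exact (continuous_const.mul (continuous_finsetSum _ fun l _ =>
        continuous_finsetSum _ fun p _ => c1 q l p)).intervalIntegrable _ _
  rw [e]
  have key : ∀ q ∈ range (2 * m + 1), KK m L (j + 1)
      ((((2 * m).choose q : ℕ) : ℝ) * ((j + 2 : ℕ) * H))
      (fun y : ℝ => ((cq q : ℤ) : ℂ) *
        ∑ l ∈ range (j + 1), ∑ p ∈ range (2 * m + 1), ∫ x in (0 : ℝ)..y,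
          Complex.exp (I * ((q : ℂ) - (m : ℂ)) * ((y : ℂ) - (x : ℂ))) *
            (b l p * ee m l p x)) := by
    intro q hq
    have hq' : q ≤ 2 * m := by
      have := Finset.mem_range.1 hq
      omega
    refine KK.smul ?_ (GI.int (cq q)) ?_
    · have h4 : KK m L (j + 1) (∑ l ∈ range (j + 1), ∑ p ∈ range (2 * m + 1),
          ((j + 2 : ℕ) : ℝ) * ‖b l p‖) (fun y : ℝ =>
          ∑ l ∈ range (j + 1), ∑ p ∈ range (2 * m + 1), ∫ x in (0 : ℝ)..y,
          Complex.exp (I * ((q : ℂ) - (m : ℂ)) * ((y : ℂ) - (x : ℂ))) *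
            (b l p * ee m l p x)) := by
        refine KK.sum _ fun l hl => KK.sum _ fun p hp => ?_
        have hl' : l ≤ j := by
          have := Finset.mem_range.1 hl
          omega
        have hp' : p ≤ 2 * m := by
          have := Finset.mem_range.1 hp
          omega
        exact KK_int hL hp' hq' l hl' (b l p) (h2 l p)
      refine h4.mono ?_
      have h5 : ∑ l ∈ range (j + 1), ∑ p ∈ range (2 * m + 1), ((j + 2 : ℕ) : ℝ) * ‖b l p‖ =
          ((j + 2 : ℕ) : ℝ) * ∑ l ∈ range (j + 1), ∑ p ∈ range (2 * m + 1), ‖b l p‖ := by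
        rw [Finset.mul_sum]
        exact Finset.sum_congr rfl fun l _ => (Finset.mul_sum _ _ _).symm
      rw [h5]
      exact mul_le_mul_of_nonneg_left h3 (Nat.cast_nonneg _)
    · rw [Complex.norm_intCast, hcq]
      push_cast
      rw [abs_mul, abs_pow, abs_neg, abs_one, one_pow, one_mul, Nat.abs_cast]
  have h6 := KK.sum _ key
  rw [← Finset.sum_mul, choose_sum] at h6
  exact h6

theorem KK_conv {m L : ℕ} (hL : ∀ k, 1 ≤ k → k ≤ 2 * m → k ∣ L) (n : ℕ) :
    KK m L n (((4 : ℝ) ^ m) ^ (n + 1) * ((n + 1).factorial : ℝ))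
      (fun y => ((conv m n y : ℝ) : ℂ)) := by
  induction n with
  | zero =>
    have h := KK_ker m L
    simpa [conv] using h
  | succ n ih =>
    have h := KK_step hL ih
    refine h.mono (le_of_eq ?_)
    rw [Nat.factorial_succ (n + 1)]
    push_cast
    ring

/-- the value at `π` -/
theorem ee_pi (m l p : ℕ) : ee m l p Real.pi =
    ((Real.pi ^ l / (l.factorial : ℝ) * (-1) ^ (m + p) : ℝ) : ℂ) := by
  have h : Complex.exp (I * ((p : ℂ) - (m : ℂ)) * (Real.pi : ℂ)) = (-1 : ℂ) ^ (m + p) := by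
    have h1 : Complex.exp ((m : ℂ) * (Real.pi * I)) = (-1) ^ m := by
      rw [Complex.exp_nat_mul, Complex.exp_pi_mul_I]
    have h2 : Complex.exp ((p : ℂ) * (Real.pi * I)) = (-1) ^ p := by
      rw [Complex.exp_nat_mul, Complex.exp_pi_mul_I]
    have h3 : I * ((p : ℂ) - (m : ℂ)) * (Real.pi : ℂ) =
        (p : ℂ) * (Real.pi * I) - (m : ℂ) * (Real.pi * I) := by ring
    rw [h3, Complex.exp_sub, h1, h2, pow_add]
    have h4 : (-1 : ℂ) ^ m * (-1) ^ m = 1 := by
      rw [← mul_pow]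
      simp
    have h5 : (-1 : ℂ) ^ m ≠ 0 := pow_ne_zero _ (by norm_num)
    rw [div_eq_iff h5]
    linear_combination (-(-1 : ℂ) ^ p) * h4
  rw [ee, h]
  push_cast
  ring

/-- Block MA -/
theorem conv_alg (m n L : ℕ) (hL : ∀ k, 1 ≤ k → k ≤ 2 * m → k ∣ L) :
    ∃ t : ℕ → ℤ, ((n.factorial : ℝ) * (L : ℝ) ^ n * conv m n Real.pi =
        ∑ l ∈ Finset.range (n + 1), (t l : ℝ) * Real.pi ^ l) ∧
      ∑ l ∈ Finset.range (n + 1), |(t l : ℝ)| ≤
        (n.factorial : ℝ) * (L : ℝ) ^ n * (((4 : ℝ) ^ m) ^ (n + 1) * ((n + 1).factorial : ℝ)) := by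
  obtain ⟨b, h1, h2, h3⟩ := KK_conv hL n
  choose u v huv using h2
  have hre : ∀ l p, ((L : ℝ) ^ (n - l) * (b l p).re) = (u l p : ℝ) := by
    intro l p
    have h := congrArg Complex.re (huv l p)
    have e : ((L : ℂ) ^ (n - l) * b l p).re = (L : ℝ) ^ (n - l) * (b l p).re := by
      rw [← Complex.ofReal_natCast, ← Complex.ofReal_pow, Complex.re_ofReal_mul]
    rw [e] at h
    simpa using h
  obtain ⟨F, hF⟩ : ∃ F : ℕ → ℕ, ∀ l, F l = n.factorial / l.factorial := ⟨_, fun _ => rfl⟩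
  refine ⟨fun l => (F l : ℤ) * (L : ℤ) ^ l *
    ∑ p ∈ range (2 * m + 1), (-1) ^ (m + p) * u l p, ?_, ?_⟩
  · have h4 := congrArg Complex.re (h1 Real.pi)
    rw [Complex.ofReal_re, Complex.re_sum] at h4
    rw [h4, Finset.mul_sum]
    refine Finset.sum_congr rfl fun l hl => ?_
    have hl' : l ≤ n := by
      have := Finset.mem_range.1 hl
      omega
    have e1 : ((F l : ℕ) : ℝ) = (n.factorial : ℝ) / (l.factorial : ℝ) := by
      rw [hF, Nat.cast_div (Nat.factorial_dvd_factorial hl')]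
      exact_mod_cast Nat.factorial_ne_zero l
    have e2 : (L : ℝ) ^ n = (L : ℝ) ^ l * (L : ℝ) ^ (n - l) := by
      rw [← pow_add]
      congr 1
      omega
    rw [Complex.re_sum, Finset.mul_sum]
    push_cast
    rw [e1, Finset.mul_sum, Finset.sum_mul]
    refine Finset.sum_congr rfl fun p _ => ?_
    rw [ee_pi, mul_comm (b l p) _, Complex.re_ofReal_mul, ← hre l p, e2]
    ring
  · have h5 : ∀ l ∈ range (n + 1), |(((F l : ℤ) * (L : ℤ) ^ l *
        ∑ p ∈ range (2 * m + 1), (-1) ^ (m + p) * u l p : ℤ) : ℝ)| ≤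
        (n.factorial : ℝ) * (L : ℝ) ^ n * ∑ p ∈ range (2 * m + 1), ‖b l p‖ := by
      intro l hl
      have hl' : l ≤ n := by
        have := Finset.mem_range.1 hl
        omega
      have e2 : (L : ℝ) ^ n = (L : ℝ) ^ l * (L : ℝ) ^ (n - l) := by
        rw [← pow_add]
        congr 1
        omega
      push_cast
      rw [abs_mul, abs_mul, abs_pow, Nat.abs_cast, Nat.abs_cast, e2]
      have h6 : |∑ p ∈ range (2 * m + 1), (-1 : ℝ) ^ (m + p) * (u l p : ℝ)| ≤
          (L : ℝ) ^ (n - l) * ∑ p ∈ range (2 * m + 1), ‖b l p‖ := by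
        refine (Finset.abs_sum_le_sum_abs _ _).trans ?_
        rw [Finset.mul_sum]
        refine Finset.sum_le_sum fun p _ => ?_
        rw [abs_mul, abs_pow, abs_neg, abs_one, one_pow, one_mul, ← hre l p, abs_mul, abs_pow,
          Nat.abs_cast]
        exact mul_le_mul_of_nonneg_left (Complex.abs_re_le_norm _) (by positivity)
      have h7 : ((F l : ℕ) : ℝ) ≤ (n.factorial : ℝ) := by
        rw [hF]
        exact_mod_cast Nat.div_le_self _ _
      calc ((F l : ℕ) : ℝ) * (L : ℝ) ^ l *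
            |∑ p ∈ range (2 * m + 1), (-1 : ℝ) ^ (m + p) * (u l p : ℝ)|
          ≤ (n.factorial : ℝ) * (L : ℝ) ^ l *
            ((L : ℝ) ^ (n - l) * ∑ p ∈ range (2 * m + 1), ‖b l p‖) := by
            refine mul_le_mul ?_ h6 (abs_nonneg _) (by positivity)
            exact mul_le_mul_of_nonneg_right h7 (by positivity)
        _ = (n.factorial : ℝ) * ((L : ℝ) ^ l * (L : ℝ) ^ (n - l)) *
            ∑ p ∈ range (2 * m + 1), ‖b l p‖ := by ring
    refine (Finset.sum_le_sum h5).trans ?_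
    rw [← Finset.mul_sum]
    exact mul_le_mul_of_nonneg_left h3 (by positivity)

end Pool.Agent.Lib_helper87.PIXA
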